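import Pool.Agent.Lib.MP_c07eba_lc.Four
import Pool.Agent.Lib.MP_c07eba_lc.Full
import Pool.Agent.Lib.MP_c07eba_lc.K3Poly
import Pool.Agent.Lib.MP_c07eba_lc.Mem3

/-!
# Deciding the list packing number is complete for `Π₂ᵖ`

For every fixed `k ≥ 3` the problem whether the list packing number of a graph is at most `k` is
complete for `Π₂ᵖ` under polynomial-time many-one reductions.
-/

namespace Pool.Agent.Results.MP_c07eba_lc.Pi2Complete

open Pool.Agent.PolyTime Pool.Agent.PathSys Pool.Agent.CookLevin Pool.Agent.MP_c07eba Turing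
open Pool.Agent.MP_c07eba.K3 Pool.Agent.MP_c07eba.KL Pool.Agent.MP_c07eba.AR
open Pool.Agent.MP_c07eba.Mem

/-- Every problem in `Π₂ᵖ` reduces to `LP_k`, for every `k ≥ 3`. -/
theorem exists_reduction {k : ℕ} (hk : 3 ≤ k) {L : List Bool → Bool} (hL : L ∈ Pi2P ∪ Pi2Ple) :
    ∃ f : List Bool → GraphInput, PT f ∧ ∀ x, L x = true ↔ LP k (f x) := by
  obtain ⟨g, hg, hgL⟩ :
      ∃ g : List Bool → List ℕ × CNF3, PT g ∧ ∀ x, L x = true ↔ QSat2 (g x) := by
    rcases hL with hL | hL
    · exact pi2_cookLevin hL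
    · exact pi2_cookLevin_le hL
  by_cases h3 : k = 3
  · subst h3
    exact ⟨fun x => toGraph3 (toHyp (g x)),
      PT.comp (g := toGraph3) PT_toGraph3 (PT.comp (g := toHyp) PT_toHyp hg),
      fun x => ((hgL x).trans (signSat_toHyp (g x)).symm).trans (lp_toGraph3 (toHyp_ok _)).symm⟩
  · obtain ⟨B, K, τ, hB⟩ := KL.exists_link (k := k) (by omega)
    exact ⟨fun x => arG B K.index (toHyp (g x)),
      PT.comp (g := arG B K.index) (PT_arG B K.index) (PT.comp (g := toHyp) PT_toHyp hg),
      fun x => (hgL x).trans ((signSat_toHyp (g x)).symm.trans (lp_arG hB (toHyp_ok _)).symm)⟩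

/-- For every fixed `k ≥ 3` the problem `LP_k` is complete for `Π₂ᵖ`: the language `lpLang k` of
the encodings of the graphs with list packing number at most `k` is in `Π₂ᵖ`, and every language
in `Π₂ᵖ` reduces to it by a function which is computable in polynomial time. Both usual forms of
`Π₂ᵖ` are treated, with words of exactly given lengths and of bounded lengths. -/
theorem result :
    Function.Injective (encode : GraphInput → List Bool) ∧
    (∀ (k : ℕ) (x : List Bool), lpLang k x = true ↔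
      ∃ X : GraphInput, encode X = x ∧ ListPackingAtMost X.graph k) ∧
    ∀ k : ℕ, 3 ≤ k →
      (lpLang k ∈ Pi2P ∧ lpLang k ∈ Pi2Ple) ∧
      ∀ L ∈ Pi2P ∪ Pi2Ple, ∃ f : List Bool → List Bool,
        N68a2faeb.IsPolyTime f ∧ ∀ x, L x = lpLang k (f x) := by
  refine ⟨encode_injective, fun k x => lpLang_iff, fun k hk =>
    ⟨⟨lpLang_mem (by omega), lpLang_mem_le (by omega)⟩, fun L hL => ?_⟩⟩
  obtain ⟨f, hf, hfL⟩ := exists_reduction hk hL
  refine ⟨fun x => encode (f x), isPolyTime_words (PT_encodeG hf), fun x => ?_⟩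
  rw [Bool.eq_iff_iff, lpLang_encode]
  exact hfL x

end Pool.Agent.Results.MP_c07eba_lc.Pi2Complete
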